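import Mathlib

set_option autoImplicit false

namespace Pool.Agent.Results.MP_4ff6b6_an.ThickPattern

open Set

/-- `(a,b)` is a bounded gap of `K`: both endpoints lie in `K` and no point of `K` lies strictly
between them. -/
def IsGap (K : Set ℝ) (a b : ℝ) : Prop :=
  a < b ∧ a ∈ K ∧ b ∈ K ∧ ∀ x ∈ K, ¬ (a < x ∧ x < b)

lemma exists_gap {K : Set ℝ} (hK : IsClosed K) {lo hi x : ℝ} (hlo : lo ∈ K) (hhi : hi ∈ K)
    (h1 : lo ≤ x) (h2 : x ≤ hi) (hx : x ∉ K) :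
    ∃ c d, IsGap K c d ∧ c < x ∧ x < d ∧ lo ≤ c ∧ d ≤ hi := by
  have hA : IsCompact (K ∩ Icc lo x) := by
    rw [inter_comm]; exact isCompact_Icc.inter_right hK
  have hB : IsCompact (K ∩ Icc x hi) := by
    rw [inter_comm]; exact isCompact_Icc.inter_right hK
  have hAne : (K ∩ Icc lo x).Nonempty := ⟨lo, hlo, le_refl _, h1⟩
  have hBne : (K ∩ Icc x hi).Nonempty := ⟨hi, hhi, h2, le_refl _⟩
  obtain ⟨c, hc, hcmax⟩ := hA.exists_isGreatest hAne
  obtain ⟨d, hd, hdmin⟩ := hB.exists_isLeast hBne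
  have hcx : c < x := lt_of_le_of_ne hc.2.2 (fun h => hx (h ▸ hc.1))
  have hxd : x < d := lt_of_le_of_ne hd.2.1 (fun h => hx (h ▸ hd.1))
  refine ⟨c, d, ⟨hcx.trans hxd, hc.1, hd.1, ?_⟩, hcx, hxd, hc.2.1, hd.2.2⟩
  rintro y hy ⟨hy1, hy2⟩
  rcases le_total y x with h | h
  · have := hcmax ⟨hy, hc.2.1.trans hy1.le, h⟩
    linarith
  · have := hdmin ⟨hy, h, hy2.le.trans hd.2.2⟩
    linarith

lemma finite_gaps {K : Set ℝ} (hK : IsCompact K) {ε : ℝ} (hε : 0 < ε) :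
    {p : ℝ × ℝ | IsGap K p.1 p.2 ∧ ε ≤ p.2 - p.1}.Finite := by
  obtain ⟨lo, hlo⟩ := hK.bddBelow
  obtain ⟨hi, hhi⟩ := hK.bddAbove
  refine Set.Finite.of_finite_image (f := fun p : ℝ × ℝ => ⌊p.1 / ε⌋) ?_ ?_
  · refine (Set.finite_Icc ⌊lo / ε⌋ ⌊hi / ε⌋).subset ?_
    rintro _ ⟨p, ⟨hp, -⟩, rfl⟩
    have h1 := hlo hp.2.1
    have h2 := hhi hp.2.1
    refine ⟨Int.floor_le_floor ?_, Int.floor_le_floor ?_⟩ <;> gcongr
  · rintro ⟨a, b⟩ ⟨hg, hl⟩ ⟨a', b'⟩ ⟨hg', hl'⟩ heq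
    simp only at heq hg hg' hl hl'
    have key : |a / ε - a' / ε| < 1 := Int.abs_sub_lt_one_of_floor_eq_floor heq
    have key2 : |a - a'| < ε := by
      rw [← sub_div, abs_div, abs_of_pos hε, div_lt_one hε] at key
      exact key
    rw [abs_lt] at key2
    have haa : a = a' := by
      rcases lt_trichotomy a a' with h | h | h
      · exact absurd ⟨h, by linarith [key2.1]⟩ (hg.2.2.2 a' hg'.2.1)
      · exact h
      · exact absurd ⟨h, by linarith [key2.2]⟩ (hg'.2.2.2 a hg.2.1)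
    subst haa
    have hbb : b = b' := by
      rcases lt_trichotomy b b' with h | h | h
      · exact absurd ⟨hg.1, h⟩ (hg'.2.2.2 b hg.2.2.1)
      · exact h
      · exact absurd ⟨hg'.1, h⟩ (hg.2.2.2 b' hg'.2.2.1)
    rw [hbb]

/-- auxiliary thickness condition -/
def Thick (A : Set ℝ) (τ : ℝ) : Prop := ∀ c d, IsGap A c d →
  (∃ e ∈ A, d + τ * (d - c) ≤ e) ∧
  (∀ c' d', IsGap A c' d' → d ≤ c' → c' < d + τ * (d - c) → d' - c' < d - c) ∧
  (∃ e ∈ A, e ≤ c - τ * (d - c)) ∧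
  (∀ c' d', IsGap A c' d' → d' ≤ c → c - τ * (d - c) < d' → d' - c' < d - c)

/-- A parametrisation of the hull of `A` starting left of `A` -/
structure Par (A : Set ℝ) (τ δ : ℝ) (P : ℝ → ℝ) : Prop where
  pos : 0 < δ
  cont : ContinuousOn P (Icc 0 δ)
  slope : ∃ α α' : ℝ, 0 < α ∧ α' < τ * α ∧ ∀ s t, 0 ≤ s → s < t → t ≤ δ →
    α * (t - s) ≤ P t - P s ∧ P t - P s ≤ α' * (t - s)
  start : ∀ x ∈ A, P 0 < x
  fin : ∀ x ∈ A, x ≤ P δ

lemma Par.lt_iff {A : Set ℝ} {τ δ : ℝ} {P : ℝ → ℝ} (h : Par A τ δ P) {s t : ℝ}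
    (hs : s ∈ Icc 0 δ) (ht : t ∈ Icc 0 δ) : P s < P t ↔ s < t := by
  obtain ⟨α, α', hα, -, hsl⟩ := h.slope
  constructor
  · intro hlt
    by_contra hcon
    push Not at hcon
    rcases hcon.eq_or_lt with h1 | h1
    · subst h1; exact lt_irrefl _ hlt
    · have := (hsl t s ht.1 h1 hs.2).1
      have h2 : 0 < α * (s - t) := mul_pos hα (by linarith)
      linarith
  · intro hlt
    have := (hsl s t hs.1 hlt ht.2).1
    have h2 : 0 < α * (t - s) := mul_pos hα (by linarith)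
    linarith

lemma Par.surj {A : Set ℝ} {τ δ : ℝ} {P : ℝ → ℝ} (h : Par A τ δ P) {y : ℝ} {a b : ℝ}
    (ha : a ∈ A) (hb : b ∈ A) (h1 : a ≤ y) (h2 : y ≤ b) : ∃ t ∈ Icc 0 δ, P t = y := by
  have := intermediate_value_Icc h.pos.le h.cont
  exact this ⟨(h.start a ha).le.trans h1, h2.trans (h.fin b hb)⟩

/-- linked pairs of gaps, type I -/
def Linked (A : Set ℝ) (δ : ℝ) (P Q : ℝ → ℝ) (U V : ℝ × ℝ) : Prop :=
  ∃ a0 b0 a1 b1 : ℝ, a0 ∈ Icc 0 δ ∧ b0 ∈ Icc 0 δ ∧ a1 ∈ Icc 0 δ ∧ b1 ∈ Icc 0 δ ∧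
    a0 < b0 ∧ b0 < a1 ∧ a1 < b1 ∧ P a0 = U.1 ∧ P a1 = U.2 ∧ Q b0 = V.1 ∧ Q b1 = V.2 ∧
    IsGap A U.1 U.2 ∧ IsGap A V.1 V.2

lemma step {A : Set ℝ} (hA : IsClosed A) {τ δ : ℝ} {P Q : ℝ → ℝ} (hτ : 0 < τ)
    (hP : Par A τ δ P) (hQ : Par A τ δ Q) (hT : Thick A τ)
    (H : ∀ t ∈ Icc 0 δ, ¬ (P t ∈ A ∧ Q t ∈ A)) {U V : ℝ × ℝ}
    (hl : Linked A δ P Q U V) :
    ∃ U' V', Linked A δ Q P V' U' ∧
      (U'.2 - U'.1) + (V'.2 - V'.1) < (U.2 - U.1) + (V.2 - V.1) := by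
  obtain ⟨a0, b0, a1, b1, ha0, hb0, ha1, hb1, h01, h12, h23, hU1, hU2, hV1, hV2, hgU, hgV⟩ := hl
  obtain ⟨α, α', hα, hαα, hsP⟩ := hP.slope
  obtain ⟨β, β', hβ, hββ, hsQ⟩ := hQ.slope
  obtain ⟨⟨e, heA, he⟩, hUr, -, -⟩ := hT _ _ hgU
  obtain ⟨-, -, ⟨e', heA', he'⟩, hVl⟩ := hT _ _ hgV
  have hUlen : 0 < U.2 - U.1 := sub_pos.2 hgU.1
  have hVlen : 0 < V.2 - V.1 := sub_pos.2 hgV.1
  obtain ⟨a2, ha2, hPa2⟩ := hP.surj (y := U.2 + τ * (U.2 - U.1)) hgU.2.2.1 heA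
    (by nlinarith) he
  obtain ⟨bm, hbm, hQbm⟩ := hQ.surj (y := V.1 - τ * (V.2 - V.1)) heA' hgV.2.1 he'
    (by nlinarith)
  have h1a2 : a1 < a2 := by
    rw [← hP.lt_iff ha1 ha2, hPa2, hU2]; nlinarith
  have hbmb0 : bm < b0 := by
    rw [← hQ.lt_iff hbm hb0, hQbm, hV1]; nlinarith
  -- lengths
  have e1 : a1 - a0 < a2 - a1 := by
    have i1 := (hsP a0 a1 ha0.1 (h01.trans h12) ha1.2).1
    have i2 := (hsP a1 a2 ha1.1 h1a2 ha2.2).2
    rw [hPa2, hU2] at i2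
    rw [hU1, hU2] at i1
    have i3 : τ * (U.2 - U.1) ≤ α' * (a2 - a1) := by linarith
    have i4 : α' * (a2 - a1) < τ * α * (a2 - a1) := by
      have : 0 < a2 - a1 := by linarith
      exact mul_lt_mul_of_pos_right hαα this
    have i5 : τ * (α * (a1 - a0)) ≤ τ * (U.2 - U.1) := by
      exact mul_le_mul_of_nonneg_left i1 hτ.le
    have i6 : τ * α * (a1 - a0) < τ * α * (a2 - a1) := by nlinarith
    exact lt_of_mul_lt_mul_left i6 (mul_pos hτ hα).le
  have e2 : b1 - b0 < b0 - bm := by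
    have i1 := (hsQ b0 b1 hb0.1 (h12.trans h23) hb1.2).1
    have i2 := (hsQ bm b0 hbm.1 hbmb0 hb0.2).2
    rw [hQbm, hV1] at i2
    rw [hV1, hV2] at i1
    have i3 : τ * (V.2 - V.1) ≤ β' * (b0 - bm) := by linarith
    have i4 : β' * (b0 - bm) < τ * β * (b0 - bm) := by
      have : 0 < b0 - bm := by linarith
      exact mul_lt_mul_of_pos_right hββ this
    have i5 : τ * (β * (b1 - b0)) ≤ τ * (V.2 - V.1) := by
      exact mul_le_mul_of_nonneg_left i1 hτ.le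
    have i6 : τ * β * (b1 - b0) < τ * β * (b0 - bm) := by nlinarith
    exact lt_of_mul_lt_mul_left i6 (mul_pos hτ hβ).le
  rcases lt_or_ge b1 a2 with hcase | hcase
  · -- replace U
    have hPb1 : P b1 ∉ A := fun h => H b1 hb1 ⟨h, by rw [hV2]; exact hgV.2.2.1⟩
    have hlo : U.2 ≤ P b1 := by
      rw [← hU2]; exact ((hP.lt_iff ha1 hb1).2 h23).le
    have hhi : P b1 < U.2 + τ * (U.2 - U.1) := by
      rw [← hPa2]; exact (hP.lt_iff hb1 ha2).2 hcase
    obtain ⟨c, d, hg, hc, hd, hc', hd'⟩ := exists_gap hA hgU.2.2.1 heA hlo (hhi.le.trans he) hPb1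
    obtain ⟨s, hs, hPs⟩ := hP.surj (y := c) hg.2.1 hg.2.1 le_rfl le_rfl
    obtain ⟨t, ht, hPt⟩ := hP.surj (y := d) hg.2.2.1 hg.2.2.1 le_rfl le_rfl
    have hlen := hUr c d hg hc' (hc.trans hhi)
    refine ⟨(c, d), V, ⟨b0, s, b1, t, hb0, hs, hb1, ht, ?_, ?_, ?_, hV1, hV2, hPs, hPt, hgV, hg⟩, ?_⟩
    · have : a1 ≤ s := by
        by_contra hcon
        push Not at hcon
        have := (hP.lt_iff hs ha1).2 hcon
        rw [hPs, hU2] at this
        linarith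
      linarith
    · rw [← hP.lt_iff hs hb1, hPs]; exact hc
    · rw [← hP.lt_iff hb1 ht, hPt]; exact hd
    · simp only; linarith
  · -- replace V
    have hba0 : bm < a0 := by
      by_contra hcon
      push Not at hcon
      linarith
    have hQa0 : Q a0 ∉ A := fun h => H a0 ha0 ⟨by rw [hU1]; exact hgU.2.1, h⟩
    have hhi : Q a0 ≤ V.1 := by
      rw [← hV1]; exact ((hQ.lt_iff ha0 hb0).2 h01).le
    have hlo : V.1 - τ * (V.2 - V.1) < Q a0 := by
      rw [← hQbm]; exact (hQ.lt_iff hbm ha0).2 hba0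
    obtain ⟨c, d, hg, hc, hd, hc', hd'⟩ := exists_gap hA heA' hgV.2.1 (he'.trans hlo.le) hhi hQa0
    obtain ⟨s, hs, hQs⟩ := hQ.surj (y := c) hg.2.1 hg.2.1 le_rfl le_rfl
    obtain ⟨t, ht, hQt⟩ := hQ.surj (y := d) hg.2.2.1 hg.2.2.1 le_rfl le_rfl
    have hlen := hVl c d hg hd' (hlo.trans hd)
    refine ⟨U, (c, d), ⟨s, a0, t, a1, hs, ha0, ht, ha1, ?_, ?_, ?_, hQs, hQt, hU1, hU2, hg, hgU⟩, ?_⟩
    · rw [← hQ.lt_iff hs ha0, hQs]; exact hc
    · rw [← hQ.lt_iff ha0 ht, hQt]; exact hd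
    · have : t ≤ b0 := by
        by_contra hcon
        push Not at hcon
        have := (hQ.lt_iff hb0 ht).2 hcon
        rw [hQt, hV1] at this
        linarith
      linarith
    · simp only; linarith


lemma sep {A : Set ℝ} (hA : IsClosed A) {δ : ℝ} {P Q : ℝ → ℝ}
    (hP : ContinuousOn P (Icc 0 δ)) (hQ : ContinuousOn Q (Icc 0 δ))
    (H : ∀ t ∈ Icc 0 δ, ¬ (P t ∈ A ∧ Q t ∈ A)) :
    ∃ ε > 0, ∀ s ∈ Icc 0 δ, ∀ t ∈ Icc 0 δ, P s ∈ A → Q t ∈ A → ε ≤ |s - t| := by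
  have h1 : IsCompact (Icc 0 δ ∩ P ⁻¹' A) :=
    isCompact_Icc.of_isClosed_subset (hP.preimage_isClosed_of_isClosed isClosed_Icc hA)
      inter_subset_left
  have h2 : IsCompact (Icc 0 δ ∩ Q ⁻¹' A) :=
    isCompact_Icc.of_isClosed_subset (hQ.preimage_isClosed_of_isClosed isClosed_Icc hA)
      inter_subset_left
  by_cases hne : ((Icc 0 δ ∩ P ⁻¹' A) ×ˢ (Icc 0 δ ∩ Q ⁻¹' A)).Nonempty
  · have hc : ContinuousOn (fun p : ℝ × ℝ => |p.1 - p.2|)
        ((Icc 0 δ ∩ P ⁻¹' A) ×ˢ (Icc 0 δ ∩ Q ⁻¹' A)) := by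
      fun_prop
    obtain ⟨⟨s0, t0⟩, hst, hmin⟩ := (h1.prod h2).exists_isMinOn hne hc
    refine ⟨|s0 - t0|, ?_, ?_⟩
    · rw [gt_iff_lt, abs_pos, sub_ne_zero]
      rintro rfl
      exact H s0 hst.1.1 ⟨hst.1.2, hst.2.2⟩
    · intro s hs t ht hPs hQt
      have := hmin (a := (s, t)) ⟨⟨hs, hPs⟩, ⟨ht, hQt⟩⟩
      simpa using this
  · refine ⟨1, one_pos, ?_⟩
    intro s hs t ht hPs hQt
    exact absurd ⟨(s, t), ⟨⟨hs, hPs⟩, ⟨ht, hQt⟩⟩⟩ hne

lemma linked_len {A : Set ℝ} {τ δ : ℝ} {P Q : ℝ → ℝ}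
    (hP : Par A τ δ P) (hQ : Par A τ δ Q) {ε : ℝ} (hε : 0 < ε)
    (H : ∀ s ∈ Icc 0 δ, ∀ t ∈ Icc 0 δ, P s ∈ A → Q t ∈ A → ε ≤ |s - t|) :
    ∃ κ > 0, ∀ U V, Linked A δ P Q U V →
      (IsGap A U.1 U.2 ∧ κ ≤ U.2 - U.1) ∧ (IsGap A V.1 V.2 ∧ κ ≤ V.2 - V.1) := by
  obtain ⟨α, α', hα, hαα, hsP⟩ := hP.slope
  obtain ⟨β, β', hβ, hββ, hsQ⟩ := hQ.slope
  refine ⟨min (α * ε) (β * ε), lt_min (mul_pos hα hε) (mul_pos hβ hε), ?_⟩
  rintro U V ⟨a0, b0, a1, b1, ha0, hb0, ha1, hb1, h01, h12, h23, hU1, hU2, hV1, hV2, hgU, hgV⟩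
  refine ⟨⟨hgU, (min_le_left _ _).trans ?_⟩, ⟨hgV, (min_le_right _ _).trans ?_⟩⟩
  · have i1 := (hsP a0 a1 ha0.1 (h01.trans h12) ha1.2).1
    have i2 := H a0 ha0 b0 hb0 (hU1 ▸ hgU.2.1) (hV1 ▸ hgV.2.1)
    rw [abs_of_neg (by linarith)] at i2
    rw [← hU1, ← hU2]
    refine le_trans ?_ i1
    exact mul_le_mul_of_nonneg_left (by linarith) hα.le
  · have i1 := (hsQ b0 b1 hb0.1 (h12.trans h23) hb1.2).1
    have i2 := H a1 ha1 b0 hb0 (hU2 ▸ hgU.2.2.1) (hV1 ▸ hgV.2.1)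
    rw [abs_of_pos (by linarith)] at i2
    rw [← hV1, ← hV2]
    refine le_trans ?_ i1
    exact mul_le_mul_of_nonneg_left (by linarith) hβ.le

/-- Nonlinear gap lemma. -/
lemma core {A : Set ℝ} (hA : IsCompact A) {τ δ : ℝ} {P Q : ℝ → ℝ} (hτ : 0 < τ)
    (hP : Par A τ δ P) (hQ : Par A τ δ Q) (hT : Thick A τ)
    (hPQ : ∀ t ∈ Ioc 0 δ, P t < Q t) {lo hi : ℝ} (hlo : IsLeast A lo) (hhi : IsGreatest A hi)
    (hlink : ∀ t ∈ Icc 0 δ, P t = lo → Q t < hi) :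
    ∃ t ∈ Icc 0 δ, P t ∈ A ∧ Q t ∈ A := by
  by_contra hcon
  push Not at hcon
  have H : ∀ t ∈ Icc 0 δ, ¬ (P t ∈ A ∧ Q t ∈ A) := fun t ht h => hcon t ht h.1 h.2
  have H' : ∀ t ∈ Icc 0 δ, ¬ (Q t ∈ A ∧ P t ∈ A) := fun t ht h => hcon t ht h.2 h.1
  obtain ⟨ε, hε, hsep⟩ := sep hA.isClosed hP.cont hQ.cont H
  have hsep' : ∀ s ∈ Icc 0 δ, ∀ t ∈ Icc 0 δ, Q s ∈ A → P t ∈ A → ε ≤ |s - t| := by
    intro s hs t ht h1 h2
    rw [abs_sub_comm]
    exact hsep t ht s hs h2 h1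
  obtain ⟨κ, hκ, hk⟩ := linked_len hP hQ hε hsep
  obtain ⟨κ', hκ', hk'⟩ := linked_len hQ hP hε hsep'
  -- the finite set of states
  let S : Set ((ℝ × ℝ) × (ℝ × ℝ)) := {p | Linked A δ P Q p.1 p.2 ∨ Linked A δ Q P p.2 p.1}
  have hSfin : S.Finite := by
    have hf := finite_gaps hA (lt_min hκ hκ')
    refine (hf.prod hf).subset ?_
    rintro ⟨U, V⟩ (h | h)
    · obtain ⟨⟨h1, h2⟩, ⟨h3, h4⟩⟩ := hk _ _ h
      exact ⟨⟨h1, (min_le_left _ _).trans h2⟩, ⟨h3, (min_le_left _ _).trans h4⟩⟩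
    · obtain ⟨⟨h1, h2⟩, ⟨h3, h4⟩⟩ := hk' _ _ h
      exact ⟨⟨h3, (min_le_right _ _).trans h4⟩, ⟨h1, (min_le_right _ _).trans h2⟩⟩
  have hSne : S.Nonempty := by
    obtain ⟨t0, ht0, hPt0⟩ := hP.surj (y := lo) hlo.1 hlo.1 le_rfl le_rfl
    have ht0pos : 0 < t0 := by
      rcases ht0.1.eq_or_lt with h | h
      · exfalso
        have := hP.start lo hlo.1
        rw [h, hPt0] at this
        exact lt_irrefl _ this
      · exact h
    have hQt0 : Q t0 < hi := hlink t0 ht0 hPt0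
    have hQt0' : lo < Q t0 := by
      rw [← hPt0]; exact hPQ t0 ⟨ht0pos, ht0.2⟩
    have hnot : Q t0 ∉ A := fun h => H t0 ht0 ⟨hPt0 ▸ hlo.1, h⟩
    obtain ⟨v0, v1, hgV, hv0, hv1, hv0', hv1'⟩ :=
      exists_gap hA.isClosed hlo.1 hhi.1 hQt0'.le hQt0.le hnot
    obtain ⟨b0, hb0, hQb0⟩ := hQ.surj (y := v0) hgV.2.1 hgV.2.1 le_rfl le_rfl
    obtain ⟨b1, hb1, hQb1⟩ := hQ.surj (y := v1) hgV.2.2.1 hgV.2.2.1 le_rfl le_rfl
    have hb0t : b0 < t0 := by rw [← hQ.lt_iff hb0 ht0, hQb0]; exact hv0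
    have htb1 : t0 < b1 := by rw [← hQ.lt_iff ht0 hb1, hQb1]; exact hv1
    have hPb1 : P b1 < hi := by
      have := hPQ b1 ⟨ht0pos.trans htb1, hb1.2⟩
      rw [hQb1] at this
      exact this.trans_le hv1'
    have hPb1' : lo < P b1 := by
      rw [← hPt0]; exact (hP.lt_iff ht0 hb1).2 htb1
    have hnot' : P b1 ∉ A := fun h => H b1 hb1 ⟨h, hQb1 ▸ hgV.2.2.1⟩
    obtain ⟨u0, u1, hgU, hu0, hu1, hu0', hu1'⟩ :=
      exists_gap hA.isClosed hlo.1 hhi.1 hPb1'.le hPb1.le hnot'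
    obtain ⟨a0, ha0, hPa0⟩ := hP.surj (y := u0) hgU.2.1 hgU.2.1 le_rfl le_rfl
    obtain ⟨a1, ha1, hPa1⟩ := hP.surj (y := u1) hgU.2.2.1 hgU.2.2.1 le_rfl le_rfl
    refine ⟨((u0, u1), (v0, v1)), Or.inr ⟨b0, a0, b1, a1, hb0, ha0, hb1, ha1, ?_, ?_, ?_,
      hQb0, hQb1, hPa0, hPa1, hgV, hgU⟩⟩
    · have : t0 ≤ a0 := by
        by_contra hcon2
        push Not at hcon2
        have := (hP.lt_iff ha0 ht0).2 hcon2
        rw [hPa0, hPt0] at this
        linarith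
      linarith
    · rw [← hP.lt_iff ha0 hb1, hPa0]; exact hu0
    · rw [← hP.lt_iff hb1 ha1, hPa1]; exact hu1
  obtain ⟨⟨U, V⟩, hUV, hmin⟩ := hSfin.exists_minimalFor
    (fun p : (ℝ × ℝ) × (ℝ × ℝ) => (p.1.2 - p.1.1) + (p.2.2 - p.2.1)) S hSne
  rcases hUV with h | h
  · obtain ⟨U', V', h1, h2⟩ := step hA.isClosed hτ hP hQ hT H h
    have := hmin (j := (U', V')) (Or.inr h1) h2.le
    simp only at this
    linarith
  · obtain ⟨V', U', h1, h2⟩ := step hA.isClosed hτ hQ hP hT H' h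
    have := hmin (j := (U', V')) (Or.inl h1) (by simp only; linarith)
    simp only at this
    linarith


/-- Right end of the bridge of `K` at the right endpoint `b` of the bounded gap `(a,b)`: the bridge
is the largest interval `[b,v]` inside the hull of `K` that contains no point of a bounded gap of
length at least `b - a`. -/
noncomputable def rightEnd (K : Set ℝ) (a b : ℝ) : ℝ :=
  sSup {v | v ∈ Icc b (sSup K) ∧
    ∀ c d, IsGap K c d → b - a ≤ d - c → Disjoint (Icc b v) (Ioo c d)}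

/-- Left end of the bridge of `K` at the left endpoint `a` of the bounded gap `(a,b)`: the bridge
is the largest interval `[w,a]` inside the hull of `K` that contains no point of a bounded gap of
length at least `b - a`. -/
noncomputable def leftEnd (K : Set ℝ) (a b : ℝ) : ℝ :=
  sInf {w | w ∈ Icc (sInf K) a ∧
    ∀ c d, IsGap K c d → b - a ≤ d - c → Disjoint (Icc w a) (Ioo c d)}

/-- Newhouse thickness of `K`: the infimum, over all endpoints of bounded gaps of `K`, of the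
length of the bridge at that endpoint divided by the length of the gap. -/
noncomputable def thickness (K : Set ℝ) : ENNReal :=
  ⨅ (a : ℝ) (b : ℝ) (_ : IsGap K a b),
    min (ENNReal.ofReal ((a - leftEnd K a b) / (b - a)))
      (ENNReal.ofReal ((rightEnd K a b - b) / (b - a)))

lemma exists_thick {K : Set ℝ} (hK : IsCompact K) (hne : K.Nonempty) (h : 1 < thickness K) :
    ∃ τ : ℝ, 1 < τ ∧ Thick K τ := by
  obtain ⟨τ, hτ0, hτ1, hτ2⟩ := ENNReal.lt_iff_exists_real_btwn.1 h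
  have hτ : 1 < τ := by
    by_contra hcon
    push Not at hcon
    have := ENNReal.ofReal_le_ofReal hcon
    rw [ENNReal.ofReal_one] at this
    exact absurd hτ1 (not_lt.2 this)
  refine ⟨τ, hτ, ?_⟩
  intro c d hg
  have hdc : 0 < d - c := sub_pos.2 hg.1
  have h1 : ENNReal.ofReal τ < min (ENNReal.ofReal ((c - leftEnd K c d) / (d - c)))
      (ENNReal.ofReal ((rightEnd K c d - d) / (d - c))) := by
    refine hτ2.trans_le ?_
    unfold thickness
    exact iInf_le_of_le c (iInf_le_of_le d (iInf_le_of_le hg le_rfl))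
  have h2 : τ < (c - leftEnd K c d) / (d - c) := by
    have := h1.trans_le (min_le_left _ _)
    exact (ENNReal.ofReal_lt_ofReal_iff_of_nonneg hτ0).1 this
  have h3 : τ < (rightEnd K c d - d) / (d - c) := by
    have := h1.trans_le (min_le_right _ _)
    exact (ENNReal.ofReal_lt_ofReal_iff_of_nonneg hτ0).1 this
  rw [lt_div_iff₀ hdc] at h2 h3
  have h2' : leftEnd K c d < c - τ * (d - c) := by linarith
  have h3' : d + τ * (d - c) < rightEnd K c d := by linarith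
  have hsup : sSup K ∈ K := hK.sSup_mem hne
  have hinf : sInf K ∈ K := hK.sInf_mem hne
  have hRne : {v | v ∈ Icc d (sSup K) ∧
      ∀ c' d', IsGap K c' d' → d - c ≤ d' - c' → Disjoint (Icc d v) (Ioo c' d')}.Nonempty := by
    refine ⟨d, ⟨le_rfl, le_csSup hK.bddAbove hg.2.2.1⟩, ?_⟩
    intro c' d' hg' _
    rw [Set.disjoint_left]
    rintro x ⟨hx1, hx2⟩ hx3
    have : x = d := le_antisymm hx2 hx1
    subst this
    exact hg'.2.2.2 x hg.2.2.1 hx3
  have hLne : {w | w ∈ Icc (sInf K) c ∧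
      ∀ c' d', IsGap K c' d' → d - c ≤ d' - c' → Disjoint (Icc w c) (Ioo c' d')}.Nonempty := by
    refine ⟨c, ⟨csInf_le hK.bddBelow hg.2.1, le_rfl⟩, ?_⟩
    intro c' d' hg' _
    rw [Set.disjoint_left]
    rintro x ⟨hx1, hx2⟩ hx3
    have : x = c := le_antisymm hx2 hx1
    subst this
    exact hg'.2.2.2 x hg.2.1 hx3
  refine ⟨⟨sSup K, hsup, ?_⟩, ?_, ⟨sInf K, hinf, ?_⟩, ?_⟩
  · refine h3'.le.trans ?_
    exact csSup_le hRne (fun v hv => hv.1.2)
  · intro c' d' hg' hc1 hc2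
    by_contra hcon
    push Not at hcon
    obtain ⟨v, hv, hcv⟩ := exists_lt_of_lt_csSup hRne (hc2.trans h3')
    have hdis := hv.2 c' d' hg' hcon
    rw [Set.disjoint_left] at hdis
    have hlt : c' < min v d' := lt_min hcv hg'.1
    obtain ⟨x, hx1, hx2⟩ := exists_between hlt
    exact hdis ⟨hc1.trans hx1.le, (hx2.le.trans (min_le_left _ _))⟩
      ⟨hx1, hx2.trans_le (min_le_right _ _)⟩
  · refine le_trans ?_ h2'.le
    exact le_csInf hLne (fun v hv => hv.1.1)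
  · intro c' d' hg' hd1 hd2
    by_contra hcon
    push Not at hcon
    obtain ⟨w, hw, hwd⟩ := exists_lt_of_csInf_lt hLne (h2'.trans hd2)
    have hdis := hw.2 c' d' hg' hcon
    rw [Set.disjoint_left] at hdis
    have hlt : max w c' < d' := max_lt hwd hg'.1
    obtain ⟨x, hx1, hx2⟩ := exists_between hlt
    exact hdis ⟨(le_max_left _ _).trans hx1.le, hx2.le.trans hd1⟩
      ⟨(le_max_right _ _).trans_lt hx1, hx2⟩

/-- the reflected set -/
def refl (K : Set ℝ) : Set ℝ := {x | -x ∈ K}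

lemma isGap_refl {K : Set ℝ} {a b : ℝ} : IsGap (refl K) a b ↔ IsGap K (-b) (-a) := by
  constructor
  · rintro ⟨h1, h2, h3, h4⟩
    refine ⟨neg_lt_neg h1, h3, h2, ?_⟩
    rintro x hx ⟨hx1, hx2⟩
    exact h4 (-x) (by simpa [refl] using hx) ⟨by linarith, by linarith⟩
  · rintro ⟨h1, h2, h3, h4⟩
    refine ⟨by linarith, h3, h2, ?_⟩
    rintro x hx ⟨hx1, hx2⟩
    exact h4 (-x) hx ⟨by linarith, by linarith⟩

lemma thick_refl {K : Set ℝ} {τ : ℝ} (h : Thick K τ) : Thick (refl K) τ := by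
  intro c d hg
  have hg' := isGap_refl.1 hg
  obtain ⟨⟨e, he, he'⟩, h2, ⟨e', h3, h3'⟩, h4⟩ := h _ _ hg'
  refine ⟨⟨-e', by simpa [refl] using h3, by linarith⟩, ?_, ⟨-e, by simpa [refl] using he, by linarith⟩, ?_⟩
  · intro c' d' hg2 hc hc2
    have := h4 _ _ (isGap_refl.1 hg2) (by linarith) (by linarith)
    linarith
  · intro c' d' hg2 hc hc2
    have := h2 _ _ (isGap_refl.1 hg2) (by linarith) (by linarith)
    linarith

/-- Small gaps whose right bridge is short. -/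
lemma small_gap {K : Set ℝ} (hK : IsCompact K) (hne : K.Nonempty) (hp : Preperfect K)
    (htd : IsTotallyDisconnected K) {ρ : ℝ} (hρ : 0 < ρ) :
    ∃ a b v v', IsGap K a b ∧ b ≤ v ∧ v - a < ρ ∧ IsGap K v v' ∧ b - a ≤ v' - v ∧
      ∀ c d, IsGap K c d → b ≤ c → d ≤ v → d - c < b - a := by
  have hnot : ∀ x ∈ K, ∀ y ∈ K, x < y → ∃ c d, IsGap K c d ∧ x ≤ c ∧ d ≤ y := by
    intro x hx y hy hxy
    have : ¬ Icc x y ⊆ K := by
      intro hsub
      have := htd _ hsub isPreconnected_Icc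
      exact hxy.ne (this ⟨le_rfl, hxy.le⟩ ⟨hxy.le, le_rfl⟩)
    obtain ⟨z, hz, hzK⟩ := not_subset.1 this
    obtain ⟨c, d, hg, -, -, h1, h2⟩ := exists_gap hK.isClosed hx hy hz.1 hz.2 hzK
    exact ⟨c, d, hg, h1, h2⟩
  rw [preperfect_iff_nhds] at hp
  obtain ⟨x0, hx0⟩ := hne
  obtain ⟨y0, ⟨-, hy0⟩, hxy0⟩ := hp x0 hx0 univ Filter.univ_mem
  obtain ⟨a0, b0, hg0⟩ : ∃ a0 b0, IsGap K a0 b0 := by
    rcases lt_or_gt_of_ne hxy0 with h | h
    · obtain ⟨c, d, hg, -⟩ := hnot _ hy0 _ hx0 h; exact ⟨c, d, hg⟩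
    · obtain ⟨c, d, hg, -⟩ := hnot _ hx0 _ hy0 h; exact ⟨c, d, hg⟩
  have hright : ∀ r > 0, ∃ k ∈ K, b0 < k ∧ k < b0 + r := by
    intro r hr
    obtain ⟨y, ⟨hy1, hy2⟩, hy3⟩ := hp b0 hg0.2.2.1 (Ioo a0 (b0 + r))
      (Ioo_mem_nhds hg0.1 (by linarith))
    refine ⟨y, hy2, ?_, hy1.2⟩
    rcases lt_or_gt_of_ne hy3 with h | h
    · exact absurd ⟨hy1.1, h⟩ (hg0.2.2.2 y hy2)
    · exact h
  have hgaps : ∀ r > 0, ∃ c d, IsGap K c d ∧ b0 < c ∧ d < b0 + r := by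
    intro r hr
    obtain ⟨k1, hk1, hk1a, hk1b⟩ := hright r hr
    obtain ⟨k2, hk2, hk2a, hk2b⟩ := hright (k1 - b0) (by linarith)
    obtain ⟨c, d, hg, hc, hd⟩ := hnot k2 hk2 k1 hk1 (by linarith)
    exact ⟨c, d, hg, by linarith, by linarith⟩
  obtain ⟨c2, d2, hg2, hc2, hd2⟩ := hgaps ρ hρ
  obtain ⟨a, b, hg, ha, hb⟩ := hgaps (min (c2 - b0) (d2 - c2)) (lt_min (by linarith) (by linarith [hg2.1]))
  have hb1 : b < c2 := by
    have := min_le_left (c2 - b0) (d2 - c2)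
    linarith
  have hb2 : b - a < d2 - c2 := by
    have := min_le_right (c2 - b0) (d2 - c2)
    linarith
  have hba : 0 < b - a := sub_pos.2 hg.1
  let T : Set (ℝ × ℝ) := {p | (IsGap K p.1 p.2 ∧ b - a ≤ p.2 - p.1) ∧ b ≤ p.1}
  have hTfin : T.Finite := (finite_gaps hK hba).subset (fun p hp => hp.1)
  obtain ⟨⟨v, v'⟩, hv, hmin⟩ := hTfin.exists_minimalFor (fun p : ℝ × ℝ => p.1) T
    ⟨(c2, d2), ⟨hg2, hb2.le⟩, hb1.le⟩
  have hvmin : ∀ c d, IsGap K c d → b - a ≤ d - c → b ≤ c → v ≤ c := by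
    intro c d h1 h2 h3
    by_contra hcon
    push Not at hcon
    have := hmin (j := (c, d)) ⟨⟨h1, h2⟩, h3⟩ hcon.le
    simp only at this
    linarith
  refine ⟨a, b, v, v', hg, hv.2, ?_, hv.1.1, hv.1.2, ?_⟩
  · have := hvmin c2 d2 hg2 hb2.le hb1.le
    linarith
  · intro c d h1 h2 h3
    by_contra hcon
    push Not at hcon
    have := hvmin c d h1 hcon h2
    linarith [h1.1]

/-- Left-pinned pattern. -/
lemma pinned {K : Set ℝ} (hK : IsCompact K) (hne : K.Nonempty) (hp : Preperfect K)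
    (htd : IsTotallyDisconnected K) {τ : ℝ} (hτ : 1 < τ) (hT : Thick K τ)
    {p q : ℝ → ℝ} {δ : ℝ} (hδ : 0 < δ) (hp0 : p 0 = 0) (hq0 : q 0 = 0)
    (hpc : ContinuousOn p (Icc 0 δ)) (hqc : ContinuousOn q (Icc 0 δ))
    (hps : ∃ α α' : ℝ, 0 < α ∧ α' < τ * α ∧ ∀ s t, 0 ≤ s → s < t → t ≤ δ →
      α * (t - s) ≤ p t - p s ∧ p t - p s ≤ α' * (t - s))
    (hqs : ∃ α α' : ℝ, 0 < α ∧ α' < τ * α ∧ ∀ s t, 0 ≤ s → s < t → t ≤ δ →
      α * (t - s) ≤ q t - q s ∧ q t - q s ≤ α' * (t - s))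
    (hpq : ∀ t ∈ Ioc 0 δ, p t < q t) (hlink : ∀ t ∈ Ioc 0 δ, q t < (1 + τ) * p t) :
    ∃ a ∈ K, ∃ t ∈ Ioc 0 δ, a + p t ∈ K ∧ a + q t ∈ K := by
  have hpδ : 0 < p δ := by
    obtain ⟨α, α', hα, -, hsl⟩ := hps
    have := (hsl 0 δ le_rfl hδ le_rfl).1
    rw [hp0] at this
    have h2 : 0 < α * (δ - 0) := mul_pos hα (by linarith)
    linarith
  obtain ⟨a, b, v, v', hg, hbv, hva, hgv, hbig, hall⟩ := small_gap hK hne hp htd hpδ
  set A := K ∩ Icc b v with hA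
  have hAc : IsCompact A := hK.inter_right isClosed_Icc
  have hba : 0 < b - a := sub_pos.2 hg.1
  have hgapA : ∀ c d, IsGap A c d → IsGap K c d ∧ b ≤ c ∧ d ≤ v := by
    rintro c d ⟨h1, h2, h3, h4⟩
    refine ⟨⟨h1, h2.1, h3.1, ?_⟩, h2.2.1, h3.2.2⟩
    intro x hx hx2
    exact h4 x ⟨hx, by linarith [h2.2.1, hx2.1], by linarith [h3.2.2, hx2.2]⟩ hx2
  have hTA : Thick A τ := by
    intro c d hgA
    obtain ⟨hgK, hbc, hdv⟩ := hgapA c d hgA
    obtain ⟨-, h2, -, h4⟩ := hT c d hgK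
    have hlen := hall c d hgK hbc hdv
    refine ⟨⟨v, ⟨hgv.2.1, hbv, le_rfl⟩, ?_⟩, ?_, ⟨b, ⟨hg.2.2.1, le_rfl, hbv⟩, ?_⟩, ?_⟩
    · by_contra hcon
      push Not at hcon
      have := h2 v v' hgv hdv hcon
      linarith
    · intro c' d' hg' h5 h6
      exact h2 c' d' (hgapA _ _ hg').1 h5 h6
    · by_contra hcon
      push Not at hcon
      have := h4 a b hg hbc hcon
      linarith
    · intro c' d' hg' h5 h6
      exact h4 c' d' (hgapA _ _ hg').1 h5 h6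
  have hvb : b + τ * (b - a) ≤ v := by
    by_contra hcon
    push Not at hcon
    have := (hT a b hg).2.1 v v' hgv hbv hcon
    linarith
  have hPar : ∀ r : ℝ → ℝ, r 0 = 0 → ContinuousOn r (Icc 0 δ) → p δ ≤ r δ →
      (∃ α α' : ℝ, 0 < α ∧ α' < τ * α ∧ ∀ s t, 0 ≤ s → s < t → t ≤ δ →
      α * (t - s) ≤ r t - r s ∧ r t - r s ≤ α' * (t - s)) → Par A τ δ (fun t => a + r t) := by
    rintro r hr0 hrc hrδ ⟨α, α', hα, hαα, hsl⟩
    refine ⟨hδ, continuousOn_const.add hrc, ⟨α, α', hα, hαα, ?_⟩, ?_, ?_⟩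
    · intro s t h1 h2 h3
      have := hsl s t h1 h2 h3
      constructor <;> linarith [this.1, this.2]
    · intro x hx
      rw [hr0]
      linarith [hx.2.1]
    · intro x hx
      linarith [hx.2.2]
  have hP := hPar p hp0 hpc le_rfl hps
  have hQ := hPar q hq0 hqc (hpq δ ⟨hδ, le_rfl⟩).le hqs
  obtain ⟨t, ht, h1, h2⟩ := core (lo := b) (hi := v) hAc (by linarith) hP hQ hTA
    (fun t ht => by have := hpq t ht; linarith)
    ⟨⟨hg.2.2.1, le_rfl, hbv⟩, fun x hx => hx.2.1⟩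
    ⟨⟨hgv.2.1, hbv, le_rfl⟩, fun x hx => hx.2.2⟩
    (by
      intro t ht hPt
      have ht0 : 0 < t := by
        rcases ht.1.eq_or_lt with h | h
        · rw [← h, hp0] at hPt; linarith
        · exact h
      have := hlink t ⟨ht0, ht.2⟩
      have hpt : p t = b - a := by linarith
      rw [hpt] at this
      nlinarith)
  have ht0 : 0 < t := by
    rcases ht.1.eq_or_lt with h | h
    · exfalso
      rw [← h, hp0] at h1
      have := h1.2.1
      linarith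
    · exact h
  exact ⟨a, hg.2.1, t, ⟨ht0, ht.2⟩, h1.1, h2.1⟩

/-- Let `K` be a Cantor set (nonempty, compact, perfect, totally disconnected) of Newhouse
thickness greater than one, and let `f` be continuously differentiable with `f 0 = 0` and
`f' 0 > 0`. Then `K` contains `x - t`, `x`, `x + f t` for some `x` and arbitrarily small `t > 0`. -/
theorem result (K : Set ℝ) (hne : K.Nonempty) (hK : IsCompact K) (hperf : Perfect K)
    (htd : IsTotallyDisconnected K) (hτ : 1 < thickness K)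
    (f : ℝ → ℝ) (hf : ContDiff ℝ 1 f) (hf0 : f 0 = 0) (hf' : 0 < deriv f 0) :
    ∀ ε > 0, ∃ x t : ℝ, 0 < t ∧ t < ε ∧ x - t ∈ K ∧ x ∈ K ∧ x + f t ∈ K := by
  intro ε hε
  obtain ⟨τ, hτ1, hT⟩ := exists_thick hK hne hτ
  set m := deriv f 0 with hm
  have hstrict : HasStrictDerivAt f m 0 := hf.contDiffAt.hasStrictDerivAt one_ne_zero
  -- choose the tolerance
  obtain ⟨η, hη0, hηm, hη1, hη2, hη3⟩ : ∃ η : ℝ, 0 < η ∧ η < m ∧ m + η < τ * (m - η) ∧
      (m < τ → m + η < τ) ∧ (τ ≤ m → 1 < τ * (m - η)) := by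
    have h1 : ∀ᶠ η in nhds (0 : ℝ), η < m := eventually_lt_nhds hf'
    have h2 : ∀ᶠ η in nhds (0 : ℝ), m + η < τ * (m - η) := by
      have hc1 : Filter.Tendsto (fun η : ℝ => m + η) (nhds 0) (nhds (m + 0)) :=
        (continuous_const.add continuous_id).tendsto 0
      have hc2 : Filter.Tendsto (fun η : ℝ => τ * (m - η)) (nhds 0) (nhds (τ * (m - 0))) :=
        (continuous_const.mul (continuous_const.sub continuous_id)).tendsto 0
      exact hc1.eventually_lt hc2 (by nlinarith)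
    have h3 : ∀ᶠ η in nhds (0 : ℝ), m < τ → m + η < τ := by
      by_cases h : m < τ
      · have hc1 : Filter.Tendsto (fun η : ℝ => m + η) (nhds 0) (nhds (m + 0)) :=
          (continuous_const.add continuous_id).tendsto 0
        filter_upwards [hc1.eventually_lt_const (show m + 0 < τ by linarith)] with x hx _ using hx
      · exact Filter.Eventually.of_forall (fun x hx => absurd hx h)
    have h4 : ∀ᶠ η in nhds (0 : ℝ), τ ≤ m → 1 < τ * (m - η) := by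
      by_cases h : τ ≤ m
      · have hc2 : Filter.Tendsto (fun η : ℝ => τ * (m - η)) (nhds 0) (nhds (τ * (m - 0))) :=
          (continuous_const.mul (continuous_const.sub continuous_id)).tendsto 0
        filter_upwards [hc2.eventually_const_lt (show 1 < τ * (m - 0) by nlinarith)] with x hx _ using hx
      · exact Filter.Eventually.of_forall (fun x hx => absurd hx h)
    have h5 := (h1.and (h2.and (h3.and h4)))
    obtain ⟨r, hr, hball⟩ := Metric.eventually_nhds_iff.1 h5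
    have := hball (y := r / 2) (by rw [Real.dist_eq]; rw [sub_zero, abs_of_pos (by linarith)]; linarith)
    exact ⟨r / 2, by linarith, this.1, this.2.1, this.2.2.1, this.2.2.2⟩
  -- slopes of f near zero
  obtain ⟨δ, hδ, hδε, hsl⟩ : ∃ δ > 0, δ < ε ∧ ∀ s t, 0 ≤ s → s < t → t ≤ δ →
      (m - η) * (t - s) ≤ f t - f s ∧ f t - f s ≤ (m + η) * (t - s) := by
    have := hasStrictFDerivAt_iff_isLittleO.1 hstrict.hasStrictFDerivAt
    have h2 := this.def hη0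
    obtain ⟨r, hr, hball⟩ := Metric.eventually_nhds_iff.1 h2
    refine ⟨min (r / 2) (ε / 2), lt_min (by linarith) (by linarith),
      (min_le_right _ _).trans_lt (by linarith), ?_⟩
    intro s t hs hst ht
    have htr : t ≤ r / 2 := ht.trans (min_le_left _ _)
    have := hball (y := (t, s)) (by
      rw [Prod.dist_eq]
      simp only [Real.dist_eq, sub_zero]
      rw [abs_of_nonneg hs, abs_of_pos (by linarith)]
      exact max_lt (by linarith) (by linarith))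
    simp only [Real.norm_eq_abs] at this
    rw [abs_of_pos (show 0 < t - s by linarith), abs_le] at this
    simp at this
    constructor
    · nlinarith [this.1]
    · nlinarith [this.2]
  have hfc : ContinuousOn f (Icc 0 δ) := hf.continuous.continuousOn
  have hpos : ∀ t ∈ Ioc 0 δ, (m - η) * t ≤ f t ∧ f t ≤ (m + η) * t := by
    intro t ht
    have := hsl 0 t le_rfl ht.1 ht.2
    rw [hf0] at this
    simpa using this
  by_cases hcase : m < τ
  · have hη2' := hη2 hcase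
    obtain ⟨a, ha, t, ht, h1, h2⟩ := pinned hK hne hperf.acc htd hτ1 hT (p := fun t => t)
      (q := fun t => t + f t) hδ rfl (by simp [hf0]) continuousOn_id
      (continuousOn_id.add hfc)
      ⟨1, 1, one_pos, by linarith, fun s t _ _ _ => by constructor <;> linarith⟩
      ⟨1 + (m - η), 1 + (m + η), by linarith, by nlinarith, fun s t h1 h2 h3 => by
        have := hsl s t h1 h2 h3
        constructor <;> nlinarith [this.1, this.2]⟩
      (fun t ht => by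
        have := (hpos t ht).1
        have h3 : 0 < (m - η) * t := mul_pos (by linarith) ht.1
        show t < t + f t
        linarith)
      (fun t ht => by
        have := (hpos t ht).2
        have h3 : (m + η) * t < τ * t := mul_lt_mul_of_pos_right hη2' ht.1
        show t + f t < (1 + τ) * t
        linarith)
    refine ⟨a + t, t, ht.1, ht.2.trans_lt hδε, by simpa using ha, h1, ?_⟩
    rw [add_assoc]; exact h2
  · have hη3' := hη3 (not_lt.1 hcase)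
    have hKr : IsCompact (refl K) := by
      have : refl K = (fun x => -x) ⁻¹' K := rfl
      rw [this]
      exact (Homeomorph.neg ℝ).isCompact_preimage.2 hK
    have hner : (refl K).Nonempty := by
      obtain ⟨x, hx⟩ := hne
      exact ⟨-x, by simpa [refl] using hx⟩
    have hpr : Preperfect (refl K) := by
      have h0 := hperf.acc
      rw [preperfect_iff_nhds] at h0 ⊢
      intro x hx U hU
      obtain ⟨y, ⟨hy1, hy2⟩, hy3⟩ := h0 (-x) hx ((fun z => -z) ⁻¹' U) (by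
        apply (continuous_neg.tendsto (-x))
        simpa using hU)
      refine ⟨-y, ⟨hy1, by simpa [refl] using hy2⟩, ?_⟩
      intro h
      apply hy3
      rw [← h]; simp
    have htr : IsTotallyDisconnected (refl K) := by
      intro S hS hpre
      have h1 : (fun x : ℝ => -x) '' S ⊆ K := by
        rintro _ ⟨x, hx, rfl⟩
        exact hS hx
      have h2 := htd _ h1 (hpre.image _ continuous_neg.continuousOn)
      intro x hx y hy
      have := h2 ⟨x, hx, rfl⟩ ⟨y, hy, rfl⟩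
      simpa using this
    obtain ⟨a, ha, t, ht, h1, h2⟩ := pinned hKr hner hpr htr hτ1 (thick_refl hT) (p := f)
      (q := fun t => t + f t) hδ hf0 (by simp [hf0]) hfc
      (continuousOn_id.add hfc)
      ⟨m - η, m + η, by linarith, hη1, fun s t h1 h2 h3 => hsl s t h1 h2 h3⟩
      ⟨1 + (m - η), 1 + (m + η), by linarith, by nlinarith, fun s t h1 h2 h3 => by
        have := hsl s t h1 h2 h3
        constructor <;> nlinarith [this.1, this.2]⟩
      (fun t ht => by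
        show f t < t + f t
        linarith [ht.1])
      (fun t ht => by
        have h0 := (hpos t ht).1
        have h3 : 1 * t < τ * (m - η) * t := mul_lt_mul_of_pos_right hη3' ht.1
        have h4 : τ * ((m - η) * t) ≤ τ * f t := mul_le_mul_of_nonneg_left h0 (by linarith)
        show t + f t < (1 + τ) * f t
        nlinarith)
    have ha' : -a ∈ K := ha
    have h1' : -(a + f t) ∈ K := h1
    have h2' : -(a + (t + f t)) ∈ K := h2
    refine ⟨-(a + f t), t, ht.1, ht.2.trans_lt hδε, ?_, h1', ?_⟩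
    · have : -(a + f t) - t = -(a + (t + f t)) := by ring
      rw [this]; exact h2'
    · have : -(a + f t) + f t = -a := by ring
      rw [this]; exact ha'

end Pool.Agent.Results.MP_4ff6b6_an.ThickPattern
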